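import Mathlib

namespace Pool.Agent.Results.MP_cf29c0_an.NotDiss

open Set Filter Topology MeasureTheory
open scoped NNReal ZeroAtInfty ENNReal

/-- class K -/
def KK (γ : ℝ≥0 → ℝ≥0) : Prop := Continuous γ ∧ γ 0 = 0 ∧ StrictMono γ

/-- class K-infinity -/
def KInf (γ : ℝ≥0 → ℝ≥0) : Prop := KK γ ∧ ¬ BddAbove (range γ)

section
variable {X U I : Type} [NormedAddCommGroup X] [NormedAddCommGroup U] [NormedSpace ℝ U]
  [NormedAddCommGroup I] [NormedSpace ℝ I]

/-- control system; `ι` identifies the input space with a space of functions -/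
def Sys (ι : I →ₗ[ℝ] (ℝ≥0 → U)) (φ : ℝ≥0 → X → I → X) : Prop :=
  Function.Injective ι ∧
  (∀ u τ, ∃ w, (∀ s, ι w s = ι u (s + τ)) ∧ ‖w‖ ≤ ‖u‖) ∧
  (∀ u v (t : ℝ≥0), 0 < t → ∃ w, ∀ s, ι w s = if s ≤ t then ι u s else ι v (s - t)) ∧
  (∀ x u, φ 0 x u = x) ∧
  (∀ t x u v, (∀ s ≤ t, ι u s = ι v s) → φ t x u = φ t x v) ∧
  (∀ x u, Continuous fun t => φ t x u) ∧
  (∀ t h x u w, (∀ s, ι w s = ι u (t + s)) → φ h (φ t x u) w = φ (t + h) x u)

/-- upper right Dini derivative along the flow -/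
noncomputable def dot (φ : ℝ≥0 → X → I → X) (V : X → ℝ≥0) (x : X) (u : I) : EReal :=
  limsup (fun t : ℝ≥0 => ((((V (φ t x u) : ℝ) - V x) / t : ℝ) : EReal)) (𝓝[>] 0)
end

def MB : Submodule ℝ (lp (fun _ : ℝ≥0 => ℝ) ∞) where
  carrier := {u | Measurable (u : ℝ≥0 → ℝ)}
  zero_mem' := measurable_const
  add_mem' := fun hu hv => Measurable.add hu hv
  smul_mem' := fun c _ hu => Measurable.const_smul hu c

def ι : MB →ₗ[ℝ] (ℝ≥0 → ℝ) := ⟨⟨fun u => u.1, fun _ _ => rfl⟩, fun _ _ => rfl⟩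

lemma ι_le (u : MB) (s : ℝ≥0) : |ι u s| ≤ ‖u‖ :=
  lp.norm_apply_le_norm ENNReal.top_ne_zero u.1 s

lemma ι_meas (u : MB) : Measurable (ι u) := u.2

lemma mk_in (f : ℝ≥0 → ℝ) (hf : Measurable f) (C : ℝ) (hC : ∀ s, |f s| ≤ C) :
    ∃ w : MB, ι w = f ∧ ‖w‖ ≤ C :=
  ⟨⟨⟨f, memℓp_infty ⟨C, by rintro _ ⟨s, rfl⟩; exact hC s⟩⟩, hf⟩, rfl,
    lp.norm_le_of_forall_le ((abs_nonneg _).trans (hC 0)) hC⟩

noncomputable def J (l : ℝ) (u : MB) (t : ℝ) : ℝ :=
  ∫ s in (0 : ℝ)..t, l * Real.exp (l * s) * ι u s.toNNReal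

lemma integ (l : ℝ) (u : MB) (a b : ℝ) :
    IntervalIntegrable (fun s => l * Real.exp (l * s) * ι u s.toNNReal) volume a b := by
  refine IntervalIntegrable.continuousOn_mul ?_ (by fun_prop)
  refine (intervalIntegrable_const (c := ‖u‖)).mono_fun'
    ((ι_meas u).comp measurable_real_toNNReal).aestronglyMeasurable ?_
  exact Eventually.of_forall fun s => ι_le u _

lemma int_exp (l t : ℝ) : ∫ s in (0 : ℝ)..t, l * Real.exp (l * s) = Real.exp (l * t) - 1 := by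
  rw [intervalIntegral.integral_eq_sub_of_hasDerivAt (f := fun s => Real.exp (l * s))]
  · simp
  · intro s _
    exact (((hasDerivAt_id s).const_mul l).exp).congr_deriv (by simp [mul_comm])
  · exact Continuous.intervalIntegrable (by fun_prop) _ _

lemma J_le (l : ℝ) (hl : 0 ≤ l) (u : MB) (t : ℝ) (ht : 0 ≤ t) :
    |J l u t| ≤ (Real.exp (l * t) - 1) * ‖u‖ := by
  rw [← int_exp, ← intervalIntegral.integral_mul_const]
  have hi : IntervalIntegrable (fun s => l * Real.exp (l * s) * ‖u‖) volume 0 t :=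
    Continuous.intervalIntegrable (by fun_prop) _ _
  rw [← Real.norm_eq_abs, J]
  refine intervalIntegral.norm_integral_le_of_norm_le ht (Eventually.of_forall fun s _ => ?_) hi
  rw [Real.norm_eq_abs, abs_mul, abs_of_nonneg (by positivity)]
  exact mul_le_mul_of_nonneg_left (ι_le u _) (by positivity)

lemma J_add (l : ℝ) (u w : MB) (t h : ℝ≥0) (hw : ∀ s, ι w s = ι u (t + s)) :
    J l u (t + h) = J l u t + Real.exp (l * t) * J l w h := by
  unfold J
  rw [← intervalIntegral.integral_add_adjacent_intervals (integ l u 0 t) (integ l u t (t + h)),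
    ← intervalIntegral.integral_const_mul]
  congr 1
  have := intervalIntegral.integral_comp_add_left (a := 0) (b := h)
    (fun s => l * Real.exp (l * s) * ι u s.toNNReal) t
  rw [add_zero] at this
  rw [← this]
  refine intervalIntegral.integral_congr fun s hs => ?_
  rw [uIcc_of_le h.coe_nonneg] at hs
  rw [hw, Real.toNNReal_add t.coe_nonneg hs.1, Real.toNNReal_coe, mul_add, Real.exp_add]; ring

noncomputable def F (t : ℝ≥0) (x : ℝ) (u : MB) (n : ℕ) : ℝ :=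
  Real.exp (-((n + 1) ^ 2 * t)) * (x + J ((n + 1) ^ 2) u t / (n + 1))

lemma F_le (t : ℝ≥0) (x : ℝ) (u : MB) (n : ℕ) : |F t x u n| ≤
    Real.exp (-((n + 1) ^ 2 * t)) * |x| + (1 - Real.exp (-((n + 1) ^ 2 * t))) * (‖u‖ / (n + 1)) := by
  have h := J_le ((n + 1) ^ 2) (by positivity) u t t.2
  have e := Real.exp_neg ((n + 1) ^ 2 * t)
  have hp := Real.exp_pos ((n + 1) ^ 2 * t)
  rw [F, abs_mul, abs_of_pos (Real.exp_pos _)]
  refine (mul_le_mul_of_nonneg_left ((abs_add_le _ _).trans (add_le_add_right (?_ :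
    _ ≤ (Real.exp ((n + 1) ^ 2 * t) - 1) * ‖u‖ / (n + 1)) _)) (Real.exp_pos _).le).trans
    (le_of_eq ?_)
  · rw [abs_div, abs_of_pos (by positivity : (0 : ℝ) < n + 1)]; gcongr
  · rw [e]; field_simp

lemma F_le' (t : ℝ≥0) (x : ℝ) (u : MB) (n : ℕ) : |F t x u n| ≤ |x| + ‖u‖ / (n + 1) := by
  have h1 : Real.exp (-((n + 1) ^ 2 * t)) ≤ 1 := Real.exp_le_one_iff.2 (neg_nonpos.2 (by positivity))
  have h2 := Real.exp_pos (-((n + 1 : ℝ) ^ 2 * t))
  have h3 : 0 ≤ ‖u‖ / (n + 1) := by positivity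
  nlinarith [F_le t x u n, abs_nonneg x]

lemma dom (x : C₀(ℕ, ℝ)) (u : MB) : Tendsto (fun n : ℕ => |x n| + ‖u‖ / (n + 1)) atTop (𝓝 0) := by
  have h1 : Tendsto x atTop (𝓝 0) := by simpa [Nat.cofinite_eq_atTop] using zero_at_infty x
  simpa using h1.abs.add (tendsto_const_nhds.div_atTop
    (tendsto_atTop_add_const_right _ 1 tendsto_natCast_atTop_atTop))

noncomputable def φ (t : ℝ≥0) (x : C₀(ℕ, ℝ)) (u : MB) : C₀(ℕ, ℝ) :=
  ⟨⟨fun n => F t (x n) u n, continuous_of_discreteTopology⟩, by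
    rw [cocompact_eq_cofinite, Nat.cofinite_eq_atTop]
    exact squeeze_zero_norm (fun n => F_le' t _ u n) (dom x u)⟩

lemma φ_ap (t : ℝ≥0) (x : C₀(ℕ, ℝ)) (u : MB) (n : ℕ) : φ t x u n = F t (x n) u n := rfl

lemma ap_le (x : C₀(ℕ, ℝ)) (n : ℕ) : |x n| ≤ ‖x‖ := x.toBCF.norm_coe_le_norm n

lemma norm_le (x : C₀(ℕ, ℝ)) (C : ℝ) (h : ∀ n, |x n| ≤ C) : ‖x‖ ≤ C :=
  (BoundedContinuousFunction.norm_le (f := x.toBCF) ((abs_nonneg _).trans (h 0))).2 h

lemma sys : Sys ι φ := by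
  refine ⟨fun u v h => Subtype.ext (Subtype.ext h), fun u τ => ?_, fun u v t _ => ?_,
    fun x u => ?_, fun t x u v h => ?_, fun x u => ?_, fun t h x u w hw => ?_⟩
  · obtain ⟨w, h1, h2⟩ := mk_in (fun s => ι u (s + τ)) ((ι_meas u).comp (by fun_prop)) _
      fun s => ι_le u _
    exact ⟨w, fun s => by rw [h1], h2⟩
  · obtain ⟨w, h1, -⟩ := mk_in (fun s => if s ≤ t then ι u s else ι v (s - t))
      (Measurable.ite measurableSet_Iic (ι_meas u) ((ι_meas v).comp (by fun_prop)))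
      (‖u‖ + ‖v‖) fun s => by
        have := norm_nonneg u
        have := norm_nonneg v
        split_ifs
        · linarith [ι_le u s]
        · linarith [ι_le v (s - t)]
    exact ⟨w, fun s => by rw [h1]⟩
  · ext n; simp [φ_ap, F, J]
  · ext n
    simp only [φ_ap, F, J]
    congr 3
    refine intervalIntegral.integral_congr fun s hs => ?_
    rw [uIcc_of_le t.coe_nonneg] at hs
    rw [h _ (Real.toNNReal_le_iff_le_coe.2 hs.2)]
  · have hc : ∀ n, Continuous fun t => F t (x n) u n := fun n => by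
      have := (intervalIntegral.continuous_primitive (integ ((n + 1) ^ 2) u) 0).comp
        NNReal.continuous_coe
      unfold F J
      exact Continuous.mul (by fun_prop) (continuous_const.add (this.div_const _))
    refine continuous_iff_continuousAt.2 fun t0 => Metric.tendsto_nhds.2 fun ε hε => ?_
    obtain ⟨N, hN⟩ := eventually_atTop.1 ((dom x u).eventually (gt_mem_nhds (by positivity :
      (0 : ℝ) < ε / 4)))
    filter_upwards [(Finset.range N).eventually_all.2 fun n _ =>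
      Metric.tendsto_nhds.1 (hc n).continuousAt (ε / 2) (by positivity)] with t ht
    rw [dist_eq_norm]
    refine (norm_le _ (ε / 2) fun n => ?_).trans_lt (by linarith)
    show |F t (x n) u n - F t0 (x n) u n| ≤ _
    rcases lt_or_ge n N with h | h
    · exact (ht n (Finset.mem_range.2 h)).le
    · linarith [abs_sub (F t (x n) u n) (F t0 (x n) u n), F_le' t (x n) u n, F_le' t0 (x n) u n,
        hN n h]
  · ext n
    simp only [φ_ap, F, NNReal.coe_add]
    rw [J_add _ u w t h hw, mul_add ((n + 1 : ℝ) ^ 2), neg_add, Real.exp_add,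
      Real.exp_neg ((n + 1) ^ 2 * t)]
    field_simp
    ring

theorem result : ∃ (X U I : Type) (_ : NormedAddCommGroup X) (_ : NormedSpace ℝ X)
    (_ : NormedAddCommGroup U) (_ : NormedSpace ℝ U) (_ : NormedAddCommGroup I)
    (_ : NormedSpace ℝ I) (ι : I →ₗ[ℝ] (ℝ≥0 → U)) (φ : ℝ≥0 → X → I → X) (V : X → ℝ≥0),
    ¬ FiniteDimensional ℝ X ∧ Sys ι φ ∧ Continuous V ∧
    (∃ ψ₁ ψ₂ χ α, KInf ψ₁ ∧ KInf ψ₂ ∧ KInf χ ∧ KInf α ∧ (∀ x, ψ₁ ‖x‖₊ ≤ V x ∧ V x ≤ ψ₂ ‖x‖₊) ∧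
      ∀ x u, χ ‖u‖₊ ≤ ‖x‖₊ → dot φ V x u ≤ ((-(α ‖x‖₊ : ℝ) : ℝ) : EReal)) ∧
    ¬ ∃ α σ, KInf α ∧ KK σ ∧
      ∀ x u, dot φ V x u ≤ ((-(α ‖x‖₊ : ℝ) + σ ‖u‖₊ : ℝ) : EReal) := by
  have hK : ∀ c : ℝ≥0, 0 < c → KInf fun r => c * r := fun c hc =>
    ⟨⟨by fun_prop, by simp, fun a b h => mul_lt_mul_of_pos_left h hc⟩, fun ⟨M, hM⟩ => by
      have := hM ⟨(M + 1) / c, rfl⟩
      simp only [mul_div_cancel₀ _ hc.ne'] at this
      exact absurd this (by simp)⟩
  refine ⟨C₀(ℕ, ℝ), ℝ, MB, inferInstance, inferInstance, inferInstance, inferInstance,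
    inferInstance, inferInstance, ι, φ, fun x => ‖x‖₊, fun hfin => ?_, sys, continuous_nnnorm,
    ⟨_, _, _, _, hK 1 one_pos, hK 1 one_pos, hK 2 two_pos, hK (1 / 4) (by norm_num),
      fun x => by simp, fun x u hxu => ?_⟩, ?_⟩
  · let e : ℕ → C₀(ℕ, ℝ) := fun k => ⟨⟨Pi.single k 1, continuous_of_discreteTopology⟩, by
      rw [cocompact_eq_cofinite]
      refine tendsto_const_nhds.congr' ?_
      filter_upwards [eventually_cofinite_ne k] with n hn
      simp [hn]⟩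
    let c : C₀(ℕ, ℝ) →ₗ[ℝ] (ℕ → ℝ) := ⟨⟨fun f => f, fun _ _ => rfl⟩, fun _ _ => rfl⟩
    exact Module.Finite.not_linearIndependent_of_infinite e
      (LinearIndependent.of_comp c (Pi.linearIndependent_single_one ℕ ℝ))
  · refine limsup_le_of_le (h := ?_)
    filter_upwards [Ioo_mem_nhdsGT (zero_lt_one' ℝ≥0)] with t ht
    have ht0 : (0 : ℝ) < t := ht.1
    have ht1 : (t : ℝ) < 1 := ht.2
    have hxu' : 2 * ‖u‖ ≤ ‖x‖ := by exact_mod_cast hxu
    have h1 : ‖φ t x u‖ ≤ ‖x‖ - t * (‖x‖ / 4) := norm_le _ _ fun n => by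
      have h2 := F_le t (x n) u n
      set E := Real.exp (-((n + 1) ^ 2 * t))
      have hE0 : 0 < E := Real.exp_pos _
      have hn : (1 : ℝ) ≤ n + 1 := by simp
      have hE : E ≤ 1 - t / 2 := by
        have h3 : E ≤ Real.exp (-t) := Real.exp_le_exp.2 (by
          nlinarith [mul_le_mul_of_nonneg_right (one_le_pow₀ hn (n := 2)) ht0.le])
        have h4 : Real.exp (-t) * (t + 1) ≤ 1 := by
          rw [Real.exp_neg, inv_mul_le_iff₀ (Real.exp_pos _), mul_one]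
          exact Real.add_one_le_exp _
        nlinarith [Real.exp_pos (-(t : ℝ))]
      have h5 : ‖u‖ / (n + 1) ≤ ‖x‖ / 2 := (div_le_self (norm_nonneg _) hn).trans (by linarith)
      have h6 := mul_le_mul_of_nonneg_left (ap_le x n) hE0.le
      have h7 := mul_le_mul_of_nonneg_left h5 (by linarith : 0 ≤ 1 - E)
      rw [φ_ap]
      nlinarith [norm_nonneg x]
    refine EReal.coe_le_coe_iff.2 ?_
    rw [div_le_iff₀ ht0]
    push_cast
    linarith
  · rintro ⟨α, σ, -, -, h⟩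
    obtain ⟨u, hu, -⟩ := mk_in (fun _ => 1) measurable_const 1 (by simp)
    set c : ℝ := -(α ‖(0 : C₀(ℕ, ℝ))‖₊ : ℝ) + σ ‖u‖₊
    have h1 := eventually_lt_of_limsup_lt ((h 0 u).trans_lt
      (EReal.coe_lt_coe_iff.2 (lt_add_one c)))
    have h2 : Tendsto (fun n : ℕ => (1 / (n + 1) ^ 2 : ℝ≥0)) atTop (𝓝[>] 0) := by
      refine tendsto_nhdsWithin_iff.2 ⟨?_, Eventually.of_forall fun n => mem_Ioi.2 (by positivity)⟩
      rw [← NNReal.tendsto_coe]
      push_cast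
      exact tendsto_const_nhds.div_atTop ((tendsto_pow_atTop two_ne_zero).comp
        (tendsto_atTop_add_const_right _ 1 tendsto_natCast_atTop_atTop))
    obtain ⟨n, hn, hn2⟩ := ((h2.eventually h1).and
      (tendsto_natCast_atTop_atTop.eventually_ge_atTop (2 * (c + 1)))).exists
    have h3 := EReal.coe_lt_coe_iff.1 hn
    have h4 := (le_abs_self _).trans (ap_le (φ (1 / (n + 1) ^ 2) 0 u) n)
    have hp : (0 : ℝ) < n + 1 := by positivity
    have e : (n + 1 : ℝ) ^ 2 * (1 / (n + 1) ^ 2) = 1 := by field_simp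
    simp only [φ_ap, F, J, hu, mul_one, int_exp] at h4
    push_cast at h3 h4
    rw [e] at h4
    simp only [norm_zero, sub_zero, ZeroAtInftyContinuousMap.zero_apply, zero_add] at h3 h4
    rw [div_lt_iff₀ (by positivity)] at h3
    have h5 := h4.trans_lt h3
    have h6 : 2 ≤ Real.exp 1 := by linarith [Real.add_one_le_exp 1]
    rw [Real.exp_neg] at h5
    field_simp at h5
    nlinarith

end Pool.Agent.Results.MP_cf29c0_an.NotDiss
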